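import Pool.Agent.Helper23.MV.StL

/-!
# Project MV, module ZTD: density for `ζ`, with a loss of logarithms.
-/

set_option autoImplicit false

namespace Pool.Agent.Helper61.MV

open Finset ArithmeticFunction
open Pool.Agent.Helper23.MV

namespace ZTD

/-! ### elementary sums -/

theorem hsum (N : ℕ) : ∑ k ∈ Icc 1 N, 1 / (k : ℝ) ≤ 1 + Real.log N := by
  have h := harmonic_le_one_add_log N
  rw [harmonic_eq_sum_Icc] at h
  push_cast at h
  simpa [one_div] using h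

/-- `∑ τ(n)²/n ≤ (∑ 1/k)^4` -/
theorem tau_sq (N : ℕ) :
    ∑ n ∈ Icc 1 N, (n.divisors.card : ℝ) ^ 2 / n ≤ (∑ k ∈ Icc 1 N, 1 / (k : ℝ)) ^ 4 := by
  have e1 : ∑ n ∈ Icc 1 N, (n.divisors.card : ℝ) ^ 2 / n =
      ∑ x ∈ (Icc 1 N).sigma (fun n => n.divisors ×ˢ n.divisors), 1 / (x.1 : ℝ) := by
    rw [Finset.sum_sigma]
    refine Finset.sum_congr rfl fun n _ => ?_
    simp only [Finset.sum_const, Finset.card_product, nsmul_eq_mul]
    push_cast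
    ring
  have e2 : (∑ k ∈ Icc 1 N, 1 / (k : ℝ)) ^ 4 =
      ∑ y ∈ (Icc 1 N) ×ˢ (Icc 1 N) ×ˢ (Icc 1 N) ×ˢ (Icc 1 N),
        1 / (y.1 : ℝ) * (1 / (y.2.1 : ℝ) * (1 / (y.2.2.1 : ℝ) * (1 / (y.2.2.2 : ℝ)))) := by
    simp only [Finset.sum_product, ← Finset.mul_sum, ← Finset.sum_mul]
    ring
  rw [e1, e2]
  set g : (Σ _ : ℕ, ℕ × ℕ) → ℕ × ℕ × ℕ × ℕ := fun x =>
    (Nat.gcd x.2.1 x.2.2, x.2.1 / Nat.gcd x.2.1 x.2.2, x.2.2 / Nat.gcd x.2.1 x.2.2,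
      x.1 / Nat.lcm x.2.1 x.2.2) with hg
  -- facts on the image
  have key : ∀ x ∈ (Icc 1 N).sigma (fun n => n.divisors ×ˢ n.divisors),
      x.2.1 = (g x).1 * (g x).2.1 ∧ x.2.2 = (g x).1 * (g x).2.2.1 ∧
      x.1 = (g x).1 * ((g x).2.1 * ((g x).2.2.1 * (g x).2.2.2)) ∧ 1 ≤ x.1 ∧ x.1 ≤ N := by
    rintro ⟨n, d1, d2⟩ hx
    rw [Finset.mem_sigma, Finset.mem_Icc, Finset.mem_product, Nat.mem_divisors,
      Nat.mem_divisors] at hx
    obtain ⟨⟨h1, h2⟩, ⟨h3, h4⟩, ⟨h5, _⟩⟩ := hx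
    simp only at h1 h2 h3 h4 h5
    have hd1 : 0 < d1 := Nat.pos_of_dvd_of_pos h3 (by omega)
    have hg0 : 0 < Nat.gcd d1 d2 := Nat.gcd_pos_of_pos_left _ hd1
    have a1 : d1 = Nat.gcd d1 d2 * (d1 / Nat.gcd d1 d2) :=
      (Nat.mul_div_cancel' (Nat.gcd_dvd_left _ _)).symm
    have a2 : d2 = Nat.gcd d1 d2 * (d2 / Nat.gcd d1 d2) :=
      (Nat.mul_div_cancel' (Nat.gcd_dvd_right _ _)).symm
    have a3 : n = Nat.lcm d1 d2 * (n / Nat.lcm d1 d2) :=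
      (Nat.mul_div_cancel' (Nat.lcm_dvd h3 h5)).symm
    have a4 : Nat.lcm d1 d2 = Nat.gcd d1 d2 * ((d1 / Nat.gcd d1 d2) * (d2 / Nat.gcd d1 d2)) := by
      apply Nat.eq_of_mul_eq_mul_left hg0
      rw [Nat.gcd_mul_lcm]
      refine (congrArg₂ (· * ·) a1 a2).trans ?_
      ring
    refine ⟨a1, a2, ?_, h1, h2⟩
    simp only [hg]
    nth_rw 1 [a3]
    rw [a4]
    ring
  have hinj : Set.InjOn g ↑((Icc 1 N).sigma (fun n => n.divisors ×ˢ n.divisors)) := by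
    intro x hx y hy hxy
    obtain ⟨a1, a2, a3, _, _⟩ := key x hx
    obtain ⟨b1, b2, b3, _, _⟩ := key y hy
    rw [← hxy] at b1 b2 b3
    obtain ⟨n, d1, d2⟩ := x
    obtain ⟨n', d1', d2'⟩ := y
    simp only at a1 a2 a3 b1 b2 b3
    have c1 : d1 = d1' := a1.trans b1.symm
    have c2 : d2 = d2' := a2.trans b2.symm
    have c3 : n = n' := a3.trans b3.symm
    subst c1 c2 c3
    rfl
  have hval : ∀ x ∈ (Icc 1 N).sigma (fun n => n.divisors ×ˢ n.divisors),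
      1 / (x.1 : ℝ) = 1 / ((g x).1 : ℝ) * (1 / ((g x).2.1 : ℝ) * (1 / ((g x).2.2.1 : ℝ) *
        (1 / ((g x).2.2.2 : ℝ)))) := by
    intro x hx
    obtain ⟨_, _, a3, _, _⟩ := key x hx
    have : (x.1 : ℝ) = (g x).1 * ((g x).2.1 * ((g x).2.2.1 * (g x).2.2.2)) := by
      exact_mod_cast a3
    rw [this]
    simp only [one_div, mul_inv]
  rw [Finset.sum_congr rfl hval, ← Finset.sum_image (f := fun y : ℕ × ℕ × ℕ × ℕ =>
    1 / (y.1 : ℝ) * (1 / (y.2.1 : ℝ) * (1 / (y.2.2.1 : ℝ) * (1 / (y.2.2.2 : ℝ))))) hinj]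
  refine Finset.sum_le_sum_of_subset_of_nonneg ?_ fun y _ _ => by positivity
  intro y hy
  obtain ⟨x, hx, rfl⟩ := Finset.mem_image.1 hy
  obtain ⟨_, _, a3, a4, a5⟩ := key x hx
  have hne : x.1 ≠ 0 := by omega
  rw [a3] at hne
  have n1 : (g x).1 ≠ 0 := left_ne_zero_of_mul hne
  have n1' := right_ne_zero_of_mul hne
  have n2 : (g x).2.1 ≠ 0 := left_ne_zero_of_mul n1'
  have n2' := right_ne_zero_of_mul n1'
  have n3 : (g x).2.2.1 ≠ 0 := left_ne_zero_of_mul n2'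
  have n4 : (g x).2.2.2 ≠ 0 := right_ne_zero_of_mul n2'
  have d1 : (g x).1 ∣ x.1 := ⟨_, a3⟩
  have d2 : (g x).2.1 ∣ x.1 := ⟨(g x).1 * ((g x).2.2.1 * (g x).2.2.2), by rw [a3]; ring⟩
  have d3 : (g x).2.2.1 ∣ x.1 := ⟨(g x).1 * ((g x).2.1 * (g x).2.2.2), by
    nth_rw 1 [a3]; ring⟩
  have d4 : (g x).2.2.2 ∣ x.1 := ⟨(g x).1 * ((g x).2.1 * (g x).2.2.1), by
    nth_rw 1 [a3]; ring⟩
  have l1 := Nat.le_of_dvd (by omega) d1
  have l2 := Nat.le_of_dvd (by omega) d2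
  have l3 := Nat.le_of_dvd (by omega) d3
  have l4 := Nat.le_of_dvd (by omega) d4
  simp only [Finset.mem_product, Finset.mem_Icc]
  omega

/-- sum over multiples -/
theorem sum_mult (N d : ℕ) (hd : 1 ≤ d) (h : ℕ → ℂ) :
    ∑ n ∈ (Ioc 0 N).filter (fun n => d ∣ n), h n = ∑ m ∈ Ioc 0 (N / d), h (d * m) := by
  have e : (Ioc 0 N).filter (fun n => d ∣ n) = (Ioc 0 (N / d)).image (fun m => d * m) := by
    ext n
    simp only [Finset.mem_filter, Finset.mem_Ioc, Finset.mem_image]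
    constructor
    · rintro ⟨⟨h1, h2⟩, ⟨m, rfl⟩⟩
      refine ⟨m, ⟨?_, ?_⟩, rfl⟩
      · rcases Nat.eq_zero_or_pos m with h | h
        · subst h; simp at h1
        · exact h
      · rw [Nat.le_div_iff_mul_le (by omega), mul_comm]
        exact h2
    · rintro ⟨m, ⟨h1, h2⟩, rfl⟩
      rw [Nat.le_div_iff_mul_le (by omega)] at h2
      refine ⟨⟨Nat.mul_pos (by omega) h1, by rw [mul_comm]; exact h2⟩, dvd_mul_right _ _⟩
  rw [e, Finset.sum_image]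
  intro a _ b _ hab
  exact Nat.eq_of_mul_eq_mul_left (by omega) hab

/-- the mollified coefficients -/
noncomputable def cc (Z n : ℕ) : ℝ := ∑ d ∈ n.divisors.filter (fun d => d ≤ Z), (moebius d : ℝ)

theorem cc_one (Z : ℕ) (hZ : 1 ≤ Z) : cc Z 1 = 1 := by
  unfold cc
  have : (Nat.divisors 1).filter (fun d => d ≤ Z) = {1} := by
    ext d
    simp only [Nat.divisors_one, Finset.mem_filter, Finset.mem_singleton]
    constructor
    · exact fun h => h.1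
    · rintro rfl
      exact ⟨rfl, hZ⟩
  rw [this]
  simp

theorem cc_zero (Z n : ℕ) (h1 : 1 < n) (h2 : n ≤ Z) : cc Z n = 0 := by
  unfold cc
  have : n.divisors.filter (fun d => d ≤ Z) = n.divisors := by
    apply Finset.filter_true_of_mem
    intro d hd
    exact (Nat.divisor_le hd).trans h2
  rw [this]
  have h := sum_divisors_moebius_of_ne_one h1.ne'
  exact_mod_cast h
where
  sum_divisors_moebius_of_ne_one {n : ℕ} (h : n ≠ 1) :
      ∑ d ∈ n.divisors, (moebius d : ℤ) = 0 := by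
    have := ArithmeticFunction.coe_zeta_mul_moebius
    have h2 := congrArg (fun f : ArithmeticFunction ℤ => f n) this
    simp only [ArithmeticFunction.coe_zeta_mul_apply] at h2
    rw [h2, ArithmeticFunction.one_apply_ne h]

theorem cc_abs (Z n : ℕ) : |cc Z n| ≤ n.divisors.card := by
  unfold cc
  refine (Finset.abs_sum_le_sum_abs _ _).trans ?_
  have : ∀ d ∈ n.divisors.filter (fun d => d ≤ Z), |(moebius d : ℝ)| ≤ 1 := by
    intro d _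
    have := ArithmeticFunction.abs_moebius_le_one (n := d)
    exact_mod_cast this
  refine (Finset.sum_le_sum this).trans ?_
  rw [Finset.sum_const, nsmul_eq_mul, mul_one]
  exact_mod_cast Finset.card_filter_le _ _

/-- the mollified sum as a sum over divisors -/
theorem mol (Z N : ℕ) (s : ℂ) :
    ∑ n ∈ Ioc 0 N, (cc Z n : ℂ) * (n : ℂ) ^ (-s) =
      ∑ d ∈ Icc 1 Z, (moebius d : ℂ) * (d : ℂ) ^ (-s) * ∑ m ∈ Ioc 0 (N / d), (m : ℂ) ^ (-s) := by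
  have e1 : ∀ n ∈ Ioc 0 N, (cc Z n : ℂ) * (n : ℂ) ^ (-s) =
      ∑ d ∈ Icc 1 Z, if d ∣ n then (moebius d : ℂ) * (n : ℂ) ^ (-s) else 0 := by
    intro n hn
    rw [Finset.mem_Ioc] at hn
    unfold cc
    push_cast
    rw [Finset.sum_mul, ← Finset.sum_filter]
    refine Finset.sum_congr ?_ fun _ _ => rfl
    ext d
    simp only [Finset.mem_filter, Nat.mem_divisors, Finset.mem_Icc]
    constructor
    · rintro ⟨⟨h1, _⟩, h2⟩
      exact ⟨⟨Nat.pos_of_dvd_of_pos h1 hn.1, h2⟩, h1⟩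
    · rintro ⟨⟨_, h2⟩, h3⟩
      exact ⟨⟨h3, by omega⟩, h2⟩
  rw [Finset.sum_congr rfl e1, Finset.sum_comm]
  refine Finset.sum_congr rfl fun d hd => ?_
  rw [Finset.mem_Icc] at hd
  rw [← Finset.sum_filter, sum_mult N d hd.1, Finset.mul_sum]
  refine Finset.sum_congr rfl fun m _ => ?_
  push_cast
  rw [Complex.natCast_mul_natCast_cpow]
  ring

/-! ### the truncated zeta function -/

/-- `∑_{m ≤ y} m^{-s}` -/
noncomputable def DZ (y : ℝ) (s : ℂ) : ℂ := ∑ m ∈ Ioc 0 ⌊y⌋₊, (m : ℂ) ^ (-s)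

theorem trz (hTr2 : StTr2) (κ : ℝ) (hκ : 0 < κ) (hκ1 : κ ≤ 1) :
    ∃ c X0 : ℝ, 0 < c ∧ c ≤ κ / 4 ∧ 2 ≤ X0 ∧ ∀ (X y : ℝ) (s : ℂ), X0 ≤ X → X ^ κ ≤ y → s ≠ 1 →
      1 - c ≤ s.re → s.re ≤ 2 → |s.im| ≤ X ^ 2 →
      ‖DZ y s - riemannZeta s - (y : ℂ) ^ (1 - s) / (1 - s)‖ ≤ X ^ (-c) := by
  obtain ⟨c, X0, h1, h2, h3, h4⟩ := hTr2 κ hκ hκ1
  refine ⟨c, X0, h1, h2, h3, fun X y s hX hy hs hr hr2 hi => ?_⟩
  have hX1 : 1 ≤ X := by linarith
  have h := h4 X y 1 s hX (by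
    rw [Nat.cast_one]
    exact Real.one_le_rpow hX1 h1.le) hy hs hr hr2 hi
  have e1 : DS (1 : DirichletCharacter ℂ 1) y s = DZ y s := by
    unfold DS DZ
    refine Finset.sum_congr rfl fun m _ => ?_
    rw [MulChar.one_apply (isUnit_of_subsingleton _), one_mul]
  rw [e1, DirichletCharacter.LFunction_modOne_eq] at h
  simpa using h

theorem cpow_split (x : ℝ) (hx : 0 ≤ x) (d : ℕ) (hd : 1 ≤ d) (s : ℂ) :
    (d : ℂ) ^ (-s) * (((x / d : ℝ) : ℂ) ^ (1 - s)) = (x : ℂ) ^ (1 - s) / d := by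
  have hd0 : (d : ℂ) ≠ 0 := by
    have : d ≠ 0 := by omega
    exact_mod_cast this
  have hdr : (d : ℝ) ≠ 0 := by
    have : d ≠ 0 := by omega
    exact_mod_cast this
  have h1 : ((x / d : ℝ) : ℂ) ^ (1 - s) * (((d : ℝ) : ℂ)) ^ (1 - s) = (x : ℂ) ^ (1 - s) := by
    rw [← Complex.mul_cpow_ofReal_nonneg (by positivity) (by positivity), ← Complex.ofReal_mul,
      div_mul_cancel₀ _ hdr]
  have h2 : (((d : ℝ) : ℂ)) ^ (1 - s) = d * (d : ℂ) ^ (-s) := by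
    rw [Complex.ofReal_natCast, sub_eq_add_neg, Complex.cpow_add _ _ hd0, Complex.cpow_one]
  rw [h2] at h1
  rw [eq_div_iff hd0, ← h1]
  ring

/-- the mollified sum at a zero -/
theorem mol_zero {κ c X : ℝ} (hκ : 0 < κ) (hX1 : 1 ≤ X)
    (H : ∀ (y : ℝ) (s : ℂ), X ^ κ ≤ y → s ≠ 1 →
      1 - c ≤ s.re → s.re ≤ 2 → |s.im| ≤ X ^ 2 →
      ‖DZ y s - riemannZeta s - (y : ℂ) ^ (1 - s) / (1 - s)‖ ≤ X ^ (-c))
    (ρ : ℂ) (hz : riemannZeta ρ = 0) (hre : 1 - c ≤ ρ.re) (hre1 : ρ.re ≤ 1) (him : 2 ≤ |ρ.im|)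
    (himX : |ρ.im| ≤ X) (x : ℝ) (hx : X ^ (5 * κ) ≤ x) :
    ‖∑ n ∈ Ioc 0 ⌊x⌋₊, (cc ⌊X ^ (3 * κ)⌋₊ n : ℂ) * (n : ℂ) ^ (-ρ) -
      (x : ℂ) ^ (1 - ρ) / (1 - ρ) * ∑ d ∈ Icc 1 ⌊X ^ (3 * κ)⌋₊, (moebius d : ℂ) / d‖ ≤
      X ^ (-c) * ∑ d ∈ Icc 1 ⌊X ^ (3 * κ)⌋₊, (d : ℝ) ^ (-ρ.re) := by
  have hX0 : 0 < X := by linarith
  have hx0 : 0 < x := lt_of_lt_of_le (Real.rpow_pos_of_pos hX0 _) hx
  have hne : ρ ≠ 1 := by
    rintro rfl
    simp at him
    linarith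
  rw [mol, Finset.mul_sum, ← Finset.sum_sub_distrib, Finset.mul_sum]
  refine (norm_sum_le _ _).trans (Finset.sum_le_sum fun d hd => ?_)
  rw [Finset.mem_Icc] at hd
  have hd1 : (1 : ℝ) ≤ d := by exact_mod_cast hd.1
  have hdz : (d : ℝ) ≤ X ^ (3 * κ) := (Nat.le_floor_iff (by positivity)).1 hd.2
  have hy : X ^ κ ≤ x / d := by
    rw [le_div_iff₀ (by linarith)]
    calc X ^ κ * d ≤ X ^ κ * X ^ (3 * κ) :=
          mul_le_mul_of_nonneg_left hdz (by positivity)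
      _ = X ^ (4 * κ) := by rw [← Real.rpow_add hX0]; ring_nf
      _ ≤ X ^ (5 * κ) := Real.rpow_le_rpow_of_exponent_le hX1 (by linarith)
      _ ≤ x := hx
  have h1 := H (x / d) ρ hy hne hre (by linarith) (himX.trans (by nlinarith))
  rw [hz, sub_zero] at h1
  have h2 : ∑ m ∈ Ioc 0 (⌊x⌋₊ / d), (m : ℂ) ^ (-ρ) = DZ (x / d) ρ := by
    unfold DZ
    rw [Nat.floor_div_natCast]
  rw [h2]
  have h3 : (moebius d : ℂ) * (d : ℂ) ^ (-ρ) * DZ (x / d) ρ -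
      (x : ℂ) ^ (1 - ρ) / (1 - ρ) * ((moebius d : ℂ) / d) =
      (moebius d : ℂ) * (d : ℂ) ^ (-ρ) *
        (DZ (x / d) ρ - (((x / d : ℝ) : ℂ)) ^ (1 - ρ) / (1 - ρ)) := by
    have := cpow_split x hx0.le d hd.1 ρ
    have e : (x : ℂ) ^ (1 - ρ) / (1 - ρ) * ((moebius d : ℂ) / d) =
        (moebius d : ℂ) * ((x : ℂ) ^ (1 - ρ) / d) / (1 - ρ) := by ring
    rw [e, ← this]
    ring
  rw [h3, norm_mul, norm_mul]
  have h4 : ‖(moebius d : ℂ)‖ ≤ 1 := by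
    have := ArithmeticFunction.abs_moebius_le_one (n := d)
    rw [Complex.norm_intCast]
    exact_mod_cast this
  have h5 : ‖(d : ℂ) ^ (-ρ)‖ = (d : ℝ) ^ (-ρ.re) := by
    rw [Complex.norm_natCast_cpow_of_pos (by omega)]
    simp
  rw [h5]
  have h6 : 0 ≤ (d : ℝ) ^ (-ρ.re) := by positivity
  calc ‖(moebius d : ℂ)‖ * (d : ℝ) ^ (-ρ.re) *
        ‖DZ (x / d) ρ - (((x / d : ℝ) : ℂ)) ^ (1 - ρ) / (1 - ρ)‖
      ≤ 1 * (d : ℝ) ^ (-ρ.re) * X ^ (-c) := by gcongr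
    _ = X ^ (-c) * (d : ℝ) ^ (-ρ.re) := by ring

/-- cancellation of the pole terms -/
theorem pole_cancel (x0 : ℝ) (hx0 : 0 ≤ x0) (ρ : ℂ) (him : ρ.im ≠ 0) :
    ((x0 * Real.exp (Real.pi / |ρ.im|) : ℝ) : ℂ) ^ (1 - ρ) =
      -((Real.exp (Real.pi * (1 - ρ.re) / |ρ.im|) : ℝ) : ℂ) * (x0 : ℂ) ^ (1 - ρ) := by
  rw [Complex.ofReal_mul, Complex.mul_cpow_ofReal_nonneg hx0 (Real.exp_pos _).le]
  have h1 : ((Real.exp (Real.pi / |ρ.im|) : ℝ) : ℂ) ^ (1 - ρ) =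
      Complex.exp ((Real.pi / |ρ.im| : ℝ) * (1 - ρ)) := by
    rw [Complex.cpow_def_of_ne_zero (by exact_mod_cast (Real.exp_pos _).ne'),
      ← Complex.ofReal_log (Real.exp_pos _).le, Real.log_exp]
  have h2 : ((Real.pi / |ρ.im| : ℝ) : ℂ) * (1 - ρ) =
      ((Real.pi * (1 - ρ.re) / |ρ.im| : ℝ) : ℂ) + ((-(Real.pi * (ρ.im / |ρ.im|)) : ℝ) : ℂ) *
        Complex.I := by
    apply Complex.ext
    · simp
      ring
    · simp
      ring
  have h3 : Complex.exp (((-(Real.pi * (ρ.im / |ρ.im|)) : ℝ) : ℂ) * Complex.I) = -1 := by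
    rcases lt_or_gt_of_ne him with h | h
    · rw [abs_of_neg h, div_neg, div_self him]
      simp [Complex.exp_pi_mul_I]
    · rw [abs_of_pos h, div_self him]
      simp only [mul_one, Complex.ofReal_neg, neg_mul]
      rw [Complex.exp_neg, Complex.exp_pi_mul_I]
      norm_num
  rw [h1, h2, Complex.exp_add, h3, ← Complex.ofReal_exp]
  ring

/-! ### duality -/

theorem dual {ι : Type} [DecidableEq ι] (F : Finset ι) (S : Finset ℕ) (c : ℕ → ℝ) (a : ι → ℕ → ℂ)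
    (w : ℕ → ℝ) (hw : ∀ n ∈ S, 0 < w n) (h : ∀ j ∈ F, 1 ≤ ‖∑ n ∈ S, (c n : ℂ) * a j n‖) (B : ℝ)
    (hB0 : 0 ≤ B)
    (hB : ∀ j ∈ F, ∑ i ∈ F, ‖∑ n ∈ S, (w n : ℂ) * (a i n * (starRingEnd ℂ) (a j n))‖ ≤ B) :
    (F.card : ℝ) ≤ (∑ n ∈ S, c n ^ 2 / w n) * B := by
  set D : ℝ := ∑ n ∈ S, c n ^ 2 / w n with hD
  have hD0 : 0 ≤ D := Finset.sum_nonneg fun n hn => div_nonneg (sq_nonneg _) (hw n hn).le
  have hη : ∀ z : ℂ, ∃ η : ℂ, ‖η‖ = 1 ∧ η * z = ‖z‖ := by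
    intro z
    by_cases hz : z = 0
    · exact ⟨1, by simp, by simp [hz]⟩
    · have hn : ‖z‖ ≠ 0 := norm_ne_zero_iff.2 hz
      refine ⟨(starRingEnd ℂ) z / ‖z‖, ?_, ?_⟩
      · rw [norm_div, Complex.norm_conj, Complex.norm_real, norm_norm, div_self hn]
      · rw [div_mul_eq_mul_div, mul_comm, Complex.mul_conj, Complex.normSq_eq_norm_sq]
        push_cast
        rw [sq, mul_div_assoc, div_self (by exact_mod_cast hn), mul_one]
  choose η hη1 hη2 using hη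
  set e : ι → ℂ := fun j => η (∑ n ∈ S, (c n : ℂ) * a j n) with he
  have he1 : ∀ j, ‖e j‖ = 1 := fun j => hη1 _
  set A : ℕ → ℂ := fun n => ∑ j ∈ F, e j * a j n with hA
  have h1 : (F.card : ℝ) ≤ ∑ n ∈ S, |c n| * ‖A n‖ := by
    have b1 : (F.card : ℝ) ≤ ∑ j ∈ F, ‖∑ n ∈ S, (c n : ℂ) * a j n‖ := by
      have := Finset.sum_le_sum h
      simpa using this
    have b2 : ((∑ j ∈ F, ‖∑ n ∈ S, (c n : ℂ) * a j n‖ : ℝ) : ℂ) = ∑ n ∈ S, (c n : ℂ) * A n := by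
      push_cast
      have b3 : ∀ j ∈ F, ((‖∑ n ∈ S, (c n : ℂ) * a j n‖ : ℝ) : ℂ) =
          ∑ n ∈ S, (c n : ℂ) * (e j * a j n) := by
        intro j _
        rw [← hη2, Finset.mul_sum]
        refine Finset.sum_congr rfl fun n _ => ?_
        simp only [he]
        ring
      rw [Finset.sum_congr rfl b3, Finset.sum_comm]
      refine Finset.sum_congr rfl fun n _ => ?_
      rw [← Finset.mul_sum]
    have b4 : ∑ j ∈ F, ‖∑ n ∈ S, (c n : ℂ) * a j n‖ = ‖∑ n ∈ S, (c n : ℂ) * A n‖ := by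
      rw [← b2, Complex.norm_real, Real.norm_of_nonneg]
      exact Finset.sum_nonneg fun _ _ => norm_nonneg _
    rw [b4] at b1
    refine b1.trans ((norm_sum_le _ _).trans (Finset.sum_le_sum fun n _ => ?_))
    rw [norm_mul, Complex.norm_real, Real.norm_eq_abs]
  have h2 : (∑ n ∈ S, |c n| * ‖A n‖) ^ 2 ≤ D * ∑ n ∈ S, w n * ‖A n‖ ^ 2 := by
    have := Finset.sum_mul_sq_le_sq_mul_sq S (fun n => |c n| / √(w n)) (fun n => √(w n) * ‖A n‖)
    have c1 : ∑ n ∈ S, |c n| / √(w n) * (√(w n) * ‖A n‖) = ∑ n ∈ S, |c n| * ‖A n‖ := by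
      refine Finset.sum_congr rfl fun n hn => ?_
      have : √(w n) ≠ 0 := (Real.sqrt_pos.2 (hw n hn)).ne'
      field_simp
    have c2 : ∑ n ∈ S, (|c n| / √(w n)) ^ 2 = D := by
      refine Finset.sum_congr rfl fun n hn => ?_
      rw [div_pow, sq_abs, Real.sq_sqrt (hw n hn).le]
    have c3 : ∑ n ∈ S, (√(w n) * ‖A n‖) ^ 2 = ∑ n ∈ S, w n * ‖A n‖ ^ 2 := by
      refine Finset.sum_congr rfl fun n hn => ?_
      rw [mul_pow, Real.sq_sqrt (hw n hn).le]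
    rwa [c1, c2, c3] at this
  have h3 : ∑ n ∈ S, w n * ‖A n‖ ^ 2 ≤ F.card * B := by
    have c1 : ((∑ n ∈ S, w n * ‖A n‖ ^ 2 : ℝ) : ℂ) =
        ∑ j ∈ F, ∑ i ∈ F, e i * (starRingEnd ℂ) (e j) *
          ∑ n ∈ S, (w n : ℂ) * (a i n * (starRingEnd ℂ) (a j n)) := by
      push_cast
      have c2 : ∀ n ∈ S, (w n : ℂ) * (‖A n‖ : ℂ) ^ 2 = ∑ j ∈ F, ∑ i ∈ F,
          e i * (starRingEnd ℂ) (e j) * ((w n : ℂ) * (a i n * (starRingEnd ℂ) (a j n))) := by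
        intro n _
        rw [← Complex.mul_conj' (A n)]
        simp only [hA]
        rw [map_sum, Finset.sum_mul_sum, Finset.sum_comm, Finset.mul_sum]
        refine Finset.sum_congr rfl fun j _ => ?_
        rw [Finset.mul_sum]
        refine Finset.sum_congr rfl fun i _ => ?_
        rw [map_mul]
        ring
      rw [Finset.sum_congr rfl c2, Finset.sum_comm]
      refine Finset.sum_congr rfl fun j _ => ?_
      rw [Finset.sum_comm]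
      refine Finset.sum_congr rfl fun i _ => ?_
      rw [Finset.mul_sum]
    have c4 : ∑ n ∈ S, w n * ‖A n‖ ^ 2 =
        ‖∑ j ∈ F, ∑ i ∈ F, e i * (starRingEnd ℂ) (e j) *
          ∑ n ∈ S, (w n : ℂ) * (a i n * (starRingEnd ℂ) (a j n))‖ := by
      rw [← c1, Complex.norm_real, Real.norm_of_nonneg]
      exact Finset.sum_nonneg fun n hn => mul_nonneg (hw n hn).le (sq_nonneg _)
    rw [c4]
    have c5 : ∑ j ∈ F, B = F.card * B := by rw [Finset.sum_const, nsmul_eq_mul]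
    rw [← c5]
    refine (norm_sum_le _ _).trans (Finset.sum_le_sum fun j hj => ?_)
    refine (norm_sum_le _ _).trans (le_trans (Finset.sum_le_sum fun i _ => ?_) (hB j hj))
    rw [norm_mul, norm_mul, Complex.norm_conj, he1, he1, one_mul, one_mul]
  rcases Finset.eq_empty_or_nonempty F with hF | hF
  · rw [hF]
    simp only [Finset.card_empty, Nat.cast_zero]
    exact mul_nonneg hD0 hB0
  · have hR : (0 : ℝ) < F.card := by exact_mod_cast Finset.card_pos.2 hF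
    have h4 : (F.card : ℝ) ^ 2 ≤ D * (F.card * B) := by
      calc (F.card : ℝ) ^ 2 ≤ (∑ n ∈ S, |c n| * ‖A n‖) ^ 2 := pow_le_pow_left₀ hR.le h1 2
        _ ≤ D * ∑ n ∈ S, w n * ‖A n‖ ^ 2 := h2
        _ ≤ D * (F.card * B) := mul_le_mul_of_nonneg_left h3 hD0
    have h5 : (F.card : ℝ) * F.card ≤ F.card * (D * B) := by
      calc (F.card : ℝ) * F.card = (F.card : ℝ) ^ 2 := by ring
        _ ≤ D * (F.card * B) := h4
        _ = F.card * (D * B) := by ring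
    exact le_of_mul_le_mul_left h5 hR

/-! ### spacing -/

theorem half_space {ι : Type} [DecidableEq ι] (P : Finset ι) (d : ι → ℝ) (X : ℝ)
    (h1 : ∀ i ∈ P, 1 ≤ d i ∧ d i ≤ X) (h2 : ∀ i ∈ P, ∀ j ∈ P, i ≠ j → 1 ≤ |d i - d j|)
    (hX : 1 ≤ X) : ∑ i ∈ P, 1 / d i ≤ 1 + Real.log X := by
  have hinj : Set.InjOn (fun i => ⌊d i⌋₊) ↑P := by
    intro i hi j hj hij
    by_contra hne
    have := h2 i hi j hj hne
    simp only at hij
    have a1 := Nat.floor_le (by linarith [(h1 i hi).1] : 0 ≤ d i)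
    have a2 := Nat.floor_le (by linarith [(h1 j hj).1] : 0 ≤ d j)
    have a3 := Nat.lt_floor_add_one (d i)
    have a4 := Nat.lt_floor_add_one (d j)
    rw [hij] at a1 a3
    have : |d i - d j| < 1 := by
      rw [abs_lt]
      constructor <;> linarith
    linarith
  calc ∑ i ∈ P, 1 / d i ≤ ∑ i ∈ P, 1 / ((⌊d i⌋₊ : ℕ) : ℝ) := by
        refine Finset.sum_le_sum fun i hi => ?_
        have a1 := Nat.floor_le (by linarith [(h1 i hi).1] : 0 ≤ d i)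
        have a2 : 1 ≤ ⌊d i⌋₊ := Nat.le_floor (by exact_mod_cast (h1 i hi).1)
        have a3 : (0 : ℝ) < (⌊d i⌋₊ : ℕ) := by exact_mod_cast a2
        exact one_div_le_one_div_of_le a3 a1
    _ = ∑ k ∈ P.image (fun i => ⌊d i⌋₊), 1 / (k : ℝ) := by
        rw [Finset.sum_image hinj]
    _ ≤ ∑ k ∈ Icc 1 ⌊X⌋₊, 1 / (k : ℝ) := by
        refine Finset.sum_le_sum_of_subset_of_nonneg ?_ fun _ _ _ => by positivity
        intro k hk
        obtain ⟨i, hi, rfl⟩ := Finset.mem_image.1 hk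
        rw [Finset.mem_Icc]
        exact ⟨Nat.le_floor (by exact_mod_cast (h1 i hi).1), Nat.floor_le_floor (h1 i hi).2⟩
    _ ≤ 1 + Real.log ⌊X⌋₊ := hsum _
    _ ≤ 1 + Real.log X := by
        have : (0 : ℝ) < ⌊X⌋₊ := by exact_mod_cast Nat.floor_pos.2 hX
        have := Real.log_le_log this (Nat.floor_le (by linarith : (0 : ℝ) ≤ X))
        linarith

theorem spacing (F : Finset ℂ) (X : ℝ) (hX : 1 ≤ X) (h1 : ∀ ρ ∈ F, |ρ.im| ≤ X)
    (h2 : ∀ ρ ∈ F, ∀ ρ' ∈ F, ρ ≠ ρ' → 1 ≤ |ρ.im - ρ'.im|) (j : ℂ) (hj : j ∈ F) :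
    ∑ i ∈ F.erase j, 1 / |i.im - j.im| ≤ 2 * (1 + Real.log (2 * X)) := by
  have hs : ∀ i ∈ F.erase j, 1 ≤ |i.im - j.im| ∧ |i.im - j.im| ≤ 2 * X := by
    intro i hi
    rw [Finset.mem_erase] at hi
    refine ⟨h2 i hi.2 j hj hi.1, ?_⟩
    have := abs_sub i.im j.im
    have a := h1 i hi.2
    have b := h1 j hj
    linarith
  rw [← Finset.sum_filter_add_sum_filter_not (F.erase j) (fun i => j.im < i.im)]
  have p1 : ∑ i ∈ (F.erase j).filter (fun i => j.im < i.im), 1 / |i.im - j.im| ≤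
      1 + Real.log (2 * X) := by
    refine half_space _ _ _ (fun i hi => hs i (Finset.mem_filter.1 hi).1) ?_ (by linarith)
    intro i hi i' hi' hne
    have a := Finset.mem_filter.1 hi
    have b := Finset.mem_filter.1 hi'
    rw [abs_of_pos (by linarith [a.2] : 0 < i.im - j.im),
      abs_of_pos (by linarith [b.2] : 0 < i'.im - j.im)]
    have : i.im - j.im - (i'.im - j.im) = i.im - i'.im := by ring
    rw [this]
    exact h2 i (Finset.mem_of_mem_erase a.1) i' (Finset.mem_of_mem_erase b.1) hne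
  have p2 : ∑ i ∈ (F.erase j).filter (fun i => ¬ j.im < i.im), 1 / |i.im - j.im| ≤
      1 + Real.log (2 * X) := by
    refine half_space _ _ _ (fun i hi => hs i (Finset.mem_filter.1 hi).1) ?_ (by linarith)
    intro i hi i' hi' hne
    have a := Finset.mem_filter.1 hi
    have b := Finset.mem_filter.1 hi'
    rw [abs_of_nonpos (by linarith [a.2] : i.im - j.im ≤ 0),
      abs_of_nonpos (by linarith [b.2] : i'.im - j.im ≤ 0)]
    have : -(i.im - j.im) - -(i'.im - j.im) = -(i.im - i'.im) := by ring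
    rw [this, abs_neg]
    exact h2 i (Finset.mem_of_mem_erase a.1) i' (Finset.mem_of_mem_erase b.1) hne
  linarith

/-! ### bounds for the kernel -/

theorem largeX (c : ℝ) (hc : 0 < c) : ∃ X1 : ℝ, 64 ≤ X1 ∧ ∀ X : ℝ, X1 ≤ X →
    6000 * Real.log X ^ 4 ≤ X ^ c := by
  have h := (isLittleO_log_rpow_rpow_atTop 4 hc).bound (c := 1 / 6000) (by norm_num)
  obtain ⟨X1, hX1⟩ := Filter.eventually_atTop.1 h
  refine ⟨max X1 64, le_max_right _ _, fun X hX => ?_⟩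
  have h1 := hX1 X ((le_max_left _ _).trans hX)
  have h2 : 64 ≤ X := (le_max_right _ _).trans hX
  have h3 : 0 ≤ Real.log X := Real.log_nonneg (by linarith)
  rw [Real.norm_of_nonneg (by positivity), Real.norm_of_nonneg (by positivity)] at h1
  have h4 : Real.log X ^ (4 : ℝ) = Real.log X ^ 4 := by
    rw [← Real.rpow_natCast]
    norm_num
  rw [h4] at h1
  linarith

theorem pow_bound {κ a X y b : ℝ} (hX : 1 ≤ X) (ha0 : 0 ≤ a) (ha : 2 * a ≤ 1)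
    (hy0 : 1 ≤ y) (hy : y ≤ 8 * X ^ (5 * κ)) (hb : b ≤ 2 * a) :
    y ^ b ≤ 8 * X ^ (10 * κ * a) := by
  have hX0 : 0 < X := by linarith
  calc y ^ b ≤ y ^ (2 * a) := Real.rpow_le_rpow_of_exponent_le hy0 hb
    _ ≤ (8 * X ^ (5 * κ)) ^ (2 * a) := Real.rpow_le_rpow (by linarith) hy (by linarith)
    _ = 8 ^ (2 * a) * X ^ (10 * κ * a) := by
        rw [Real.mul_rpow (by norm_num) (by positivity), ← Real.rpow_mul hX0.le]
        ring_nf
    _ ≤ 8 ^ (1 : ℝ) * X ^ (10 * κ * a) := by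
        apply mul_le_mul_of_nonneg_right _ (by positivity)
        exact Real.rpow_le_rpow_of_exponent_le (by norm_num) ha
    _ = 8 * X ^ (10 * κ * a) := by rw [Real.rpow_one]

theorem G_bound {κ c a X : ℝ} (hκ : 0 < κ) (hX1 : 1 ≤ X) (ha0 : 0 ≤ a) (ha : 2 * a ≤ 1)
    (hac : 2 * a ≤ c)
    (H : ∀ (y : ℝ) (s : ℂ), X ^ κ ≤ y → s ≠ 1 →
      1 - c ≤ s.re → s.re ≤ 2 → |s.im| ≤ X ^ 2 →
      ‖DZ y s - riemannZeta s - (y : ℂ) ^ (1 - s) / (1 - s)‖ ≤ X ^ (-c))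
    (y : ℝ) (hy1 : X ^ (5 * κ) ≤ y) (hy2 : y ≤ 8 * X ^ (5 * κ)) (s : ℂ) (hs1 : 1 - 2 * a ≤ s.re)
    (hs2 : s.re ≤ 1) (hs3 : 1 ≤ |s.im|) (hs4 : |s.im| ≤ X ^ 2) :
    ‖∑ n ∈ Ioc ⌊X ^ (3 * κ)⌋₊ ⌊y⌋₊, (n : ℂ) ^ (-s)‖ ≤
      16 * X ^ (10 * κ * a) / |s.im| + 2 * X ^ (-c) := by
  have hX0 : 0 < X := by linarith
  have hz1 : 1 ≤ X ^ (3 * κ) := Real.one_le_rpow hX1 (by positivity)
  have hz2 : X ^ (3 * κ) ≤ X ^ (5 * κ) := Real.rpow_le_rpow_of_exponent_le hX1 (by linarith)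
  have hz3 : X ^ κ ≤ X ^ (3 * κ) := Real.rpow_le_rpow_of_exponent_le hX1 (by linarith)
  have hne : s ≠ 1 := by
    rintro rfl
    simp at hs3
    linarith
  have e : ∑ n ∈ Ioc ⌊X ^ (3 * κ)⌋₊ ⌊y⌋₊, (n : ℂ) ^ (-s) = DZ y s - DZ (X ^ (3 * κ)) s := by
    unfold DZ
    rw [← Finset.sum_Ioc_consecutive (fun n : ℕ => (n : ℂ) ^ (-s)) (Nat.zero_le _)
      (Nat.floor_le_floor (hz2.trans hy1))]
    ring
  have h1 := H y s (hz3.trans (hz2.trans hy1)) hne (by linarith) (by linarith) hs4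
  have h2 := H (X ^ (3 * κ)) s hz3 hne (by linarith) (by linarith) hs4
  have hnn : |s.im| ≤ ‖1 - s‖ := by
    have := Complex.abs_im_le_norm (1 - s)
    simpa using this
  have hsim : 0 < |s.im| := by linarith
  have hy0 : 0 < y := by linarith
  have h3 : ‖(y : ℂ) ^ (1 - s) / (1 - s)‖ ≤ 8 * X ^ (10 * κ * a) / |s.im| := by
    rw [norm_div, Complex.norm_cpow_eq_rpow_re_of_pos hy0]
    have : y ^ (1 - s).re ≤ 8 * X ^ (10 * κ * a) :=
      pow_bound hX1 ha0 ha (by linarith) hy2 (by simp; linarith)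
    exact div_le_div₀ (by positivity) this hsim hnn
  have h4 : ‖((X ^ (3 * κ) : ℝ) : ℂ) ^ (1 - s) / (1 - s)‖ ≤ 8 * X ^ (10 * κ * a) / |s.im| := by
    rw [norm_div, Complex.norm_cpow_eq_rpow_re_of_pos (by linarith)]
    have : (X ^ (3 * κ)) ^ (1 - s).re ≤ 8 * X ^ (10 * κ * a) :=
      pow_bound hX1 ha0 ha hz1 (by nlinarith) (by simp; linarith)
    exact div_le_div₀ (by positivity) this hsim hnn
  rw [e]
  have e2 : DZ y s - DZ (X ^ (3 * κ)) s =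
      (DZ y s - riemannZeta s - (y : ℂ) ^ (1 - s) / (1 - s)) -
      (DZ (X ^ (3 * κ)) s - riemannZeta s - ((X ^ (3 * κ) : ℝ) : ℂ) ^ (1 - s) / (1 - s)) +
      (y : ℂ) ^ (1 - s) / (1 - s) - ((X ^ (3 * κ) : ℝ) : ℂ) ^ (1 - s) / (1 - s) := by ring
  rw [e2]
  refine (norm_sub_le _ _).trans ?_
  refine (add_le_add_left ((norm_add_le _ _).trans (add_le_add_left (norm_sub_le _ _) _)) _).trans ?_
  have : 16 * X ^ (10 * κ * a) / |s.im| =
      8 * X ^ (10 * κ * a) / |s.im| + 8 * X ^ (10 * κ * a) / |s.im| := by ring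
  linarith

theorem G_diag {κ a X : ℝ} (hX1 : 1 ≤ X) (ha0 : 0 ≤ a) (ha : 2 * a ≤ 1) (Z N : ℕ)
    (hN : (N : ℝ) ≤ 8 * X ^ (5 * κ)) (s : ℂ) (hs1 : 1 - 2 * a ≤ s.re) (hL : Real.log N ≤ Real.log X) :
    ‖∑ n ∈ Ioc Z N, (n : ℂ) ^ (-s)‖ ≤ 8 * X ^ (10 * κ * a) * (1 + Real.log X) := by
  have hX0 : 0 < X := by linarith
  calc ‖∑ n ∈ Ioc Z N, (n : ℂ) ^ (-s)‖ ≤ ∑ n ∈ Ioc Z N, ‖(n : ℂ) ^ (-s)‖ := norm_sum_le _ _
    _ ≤ ∑ n ∈ Ioc Z N, 8 * X ^ (10 * κ * a) * (1 / (n : ℝ)) := by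
        refine Finset.sum_le_sum fun n hn => ?_
        rw [Finset.mem_Ioc] at hn
        have hn0 : 0 < n := by omega
        have hn1 : (1 : ℝ) ≤ n := by exact_mod_cast hn0
        rw [Complex.norm_natCast_cpow_of_pos hn0]
        have e : (n : ℝ) ^ (-s).re = (n : ℝ) ^ (1 - s.re) * (1 / (n : ℝ)) := by
          rw [one_div, ← Real.rpow_neg_one, ← Real.rpow_add (by linarith)]
          congr 1
          rw [Complex.neg_re]
          ring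
        rw [e]
        apply mul_le_mul_of_nonneg_right _ (by positivity)
        refine pow_bound hX1 ha0 ha hn1 (le_trans ?_ hN) (by linarith)
        exact_mod_cast hn.2
    _ = 8 * X ^ (10 * κ * a) * ∑ n ∈ Ioc Z N, 1 / (n : ℝ) := by rw [Finset.mul_sum]
    _ ≤ 8 * X ^ (10 * κ * a) * (1 + Real.log X) := by
        apply mul_le_mul_of_nonneg_left _ (by positivity)
        calc ∑ n ∈ Ioc Z N, 1 / (n : ℝ) ≤ ∑ n ∈ Icc 1 N, 1 / (n : ℝ) := by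
              refine Finset.sum_le_sum_of_subset_of_nonneg ?_ fun _ _ _ => by positivity
              intro n hn
              rw [Finset.mem_Ioc] at hn
              rw [Finset.mem_Icc]
              omega
          _ ≤ 1 + Real.log N := hsum N
          _ ≤ 1 + Real.log X := by linarith

/-- the weight -/
noncomputable def vv (E : ℝ) (N0 N : ℕ) (n : ℕ) : ℝ :=
  (if n ≤ N then 1 else 0) + E * (if n ≤ N0 then 1 else 0)

theorem sum_vv (f : ℕ → ℂ) (E : ℝ) (Z N0 N N2 : ℕ) (h1 : N0 ≤ N) (h2 : N ≤ N2) :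
    ∑ n ∈ Ioc Z N2, (vv E N0 N n : ℂ) * f n =
      ∑ n ∈ Ioc Z N, f n + E * ∑ n ∈ Ioc Z N0, f n := by
  have e : ∀ M, M ≤ N2 → ∑ n ∈ Ioc Z M, f n = ∑ n ∈ Ioc Z N2, if n ≤ M then f n else 0 := by
    intro M hM
    rw [← Finset.sum_filter]
    refine Finset.sum_congr ?_ fun _ _ => rfl
    ext n
    simp only [Finset.mem_Ioc, Finset.mem_filter]
    constructor
    · rintro ⟨a, b⟩
      exact ⟨⟨a, by omega⟩, b⟩
    · rintro ⟨⟨a, _⟩, b⟩
      exact ⟨a, b⟩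
  rw [e N h2, e N0 (h1.trans h2), Finset.mul_sum, ← Finset.sum_add_distrib]
  refine Finset.sum_congr rfl fun n _ => ?_
  unfold vv
  split_ifs <;> push_cast <;> ring

theorem sum_vv2 (f : ℕ → ℂ) (E E' : ℝ) (Z N0 N N' N2 : ℕ) (h1 : N0 ≤ N) (h1' : N ≤ N')
    (h2 : N' ≤ N2) :
    ∑ n ∈ Ioc Z N2, (vv E N0 N n : ℂ) * (vv E' N0 N' n : ℂ) * f n =
      ∑ n ∈ Ioc Z N, f n + (E + E' + E * E' : ℝ) * ∑ n ∈ Ioc Z N0, f n := by
  have e := sum_vv f (E + E' + E * E') Z N0 N N2 h1 (h1'.trans h2)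
  rw [← e]
  refine Finset.sum_congr rfl fun n _ => ?_
  rw [← Complex.ofReal_mul]
  congr 2
  unfold vv
  by_cases a1 : n ≤ N0
  · have a2 : n ≤ N := a1.trans h1
    have a3 : n ≤ N' := a2.trans h1'
    simp only [a1, a2, a3, if_true]
    ring
  · by_cases a2 : n ≤ N
    · have a3 : n ≤ N' := a2.trans h1'
      simp only [a1, a2, a3, if_true, if_false]
      ring
    · simp only [a1, a2, if_false]
      ring

theorem conj_natpow (n : ℕ) (s : ℂ) :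
    (starRingEnd ℂ) ((n : ℂ) ^ (-s)) = (n : ℂ) ^ (-(starRingEnd ℂ) s) := by
  have h := Complex.cpow_conj (n : ℂ) (-s) (by
    rw [Complex.natCast_arg]
    exact Real.pi_pos.ne)
  rw [map_neg] at h
  rw [h]
  simp

theorem ker_eq (n : ℕ) (hn : 0 < n) (v v' : ℝ) (r r' : ℂ) :
    ((n : ℝ) : ℂ) * (((v : ℂ) * (n : ℂ) ^ (-r)) *
      (starRingEnd ℂ) ((v' : ℂ) * (n : ℂ) ^ (-r'))) =
      (v : ℂ) * (v' : ℂ) * (n : ℂ) ^ (-(r + (starRingEnd ℂ) r' - 1)) := by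
  have hn0 : (n : ℂ) ≠ 0 := by exact_mod_cast hn.ne'
  rw [map_mul, Complex.conj_ofReal, conj_natpow]
  have e : -(r + (starRingEnd ℂ) r' - 1) = 1 + -r + -(starRingEnd ℂ) r' := by ring
  rw [e, Complex.cpow_add _ _ hn0, Complex.cpow_add _ _ hn0, Complex.cpow_one]
  push_cast
  ring

/-! ### small numerical facts -/

theorem n1 {x e : ℝ} (h : 1 ≤ x) (h3 : 1 ≤ e) (h4 : e ≤ 8) : x ≤ x * e ∧ x * e ≤ 8 * x := by
  constructor <;> nlinarith

theorem n2 {p t m : ℝ} (h1 : p ≤ 4) (h2 : 0 < p) (h3 : t ≤ 1) (h4 : 0 ≤ t) (h5 : 2 ≤ m) :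
    p * t ≤ 2 * m := by nlinarith

theorem n3 {x y X : ℝ} (h1 : x ≤ y) (h2 : y * y = X) (h3 : 8 ≤ y) : 8 * x ≤ X := by nlinarith

theorem n4 {L : ℝ} (h : 1 ≤ L) : L ≤ L ^ 4 := by
  nlinarith [pow_le_pow_left₀ (by norm_num) h 3, sq_nonneg L]

theorem n5 {κ a c : ℝ} (h1 : 0 < κ) (h2 : κ ≤ 1 / 10) (h3 : 0 ≤ a) (h4 : a ≤ c / 2) (hc : 0 < c) :
    3 * κ * a ≤ c / 2 := by nlinarith

theorem n6 {E ε g t : ℝ} (hE : 1 ≤ E) (hε : ε ≤ 1 / 2) (h1 : 1 + E - g ≤ t)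
    (h2 : g ≤ (1 + E) * ε) : 1 ≤ t := by nlinarith

theorem n7 {x y : ℝ} (h1 : 1 ≤ x) (h2 : x ≤ 8) (h3 : 1 ≤ y) (h4 : y ≤ 8) : x + y + x * y ≤ 80 := by
  nlinarith

theorem n8 {x y z X : ℝ} (h : x ≤ y + z) (h1 : y ≤ X) (h2 : z ≤ X) (hX : 64 ≤ X) :
    x ≤ X ^ 2 := by nlinarith

theorem n9 {P L : ℝ} (h1 : 1 ≤ P) (h2 : 1 ≤ L) : 81 * (8 * P * (1 + L)) ≤ 81 * (16 * P * L) := by
  nlinarith

theorem n10 {u v : ℝ} (hu : 1 ≤ u) (hv : 0 < v) : u * v ≤ v * u * u := by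
  have : 0 < u * v := by positivity
  nlinarith

theorem n11 {R s t : ℝ} (hR : 0 ≤ R) (h : R ≤ t + s * R) (hs : s ≤ 1 / 2) : R ≤ 2 * t := by
  nlinarith

end ZTD

open ZTD

theorem hZtd : StTr2 → StZtd := by
  intro hTr2 κ hκ hκ1
  obtain ⟨c1, X2, hc1, hc1κ, hX2, H0⟩ := trz hTr2 κ hκ (by linarith)
  obtain ⟨X3, hX3, hlog⟩ := largeX (c1 / 2) (by linarith)
  refine ⟨c1 / 2, 300000, max X2 X3, by linarith, by linarith, by norm_num,
    hX2.trans (le_max_left _ _), ?_⟩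
  intro X a F hX ha0 ha hF hsp
  have hXX2 : X2 ≤ X := (le_max_left _ _).trans hX
  have hX64 : 64 ≤ X := hX3.trans ((le_max_right _ _).trans hX)
  have hlogX := hlog X ((le_max_right _ _).trans hX)
  have hX1 : 1 ≤ X := by linarith
  have hX0 : 0 < X := by linarith
  have H := fun (y : ℝ) (s : ℂ) => H0 X y s hXX2
  set L : ℝ := Real.log X with hL
  have hL1 : 1 ≤ L := by
    rw [hL, Real.le_log_iff_exp_le hX0]
    have := Real.exp_one_lt_d9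
    linarith
  have ha2 : 2 * a ≤ 1 := by linarith
  have h2ac : 2 * a ≤ c1 := by linarith
  -- parameters
  set Z : ℕ := ⌊X ^ (3 * κ)⌋₊ with hZ
  set x0 : ℝ := X ^ (5 * κ) with hx0
  set N0 : ℕ := ⌊x0⌋₊ with hN0
  set N2 : ℕ := ⌊8 * x0⌋₊ with hN2
  set xr : ℂ → ℝ := fun ρ => x0 * Real.exp (Real.pi / |ρ.im|) with hxr
  set E : ℂ → ℝ := fun ρ => Real.exp (Real.pi * (1 - ρ.re) / |ρ.im|) with hE
  have hz1 : 1 ≤ X ^ (3 * κ) := Real.one_le_rpow hX1 (by positivity)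
  have hzx : X ^ (3 * κ) ≤ x0 := Real.rpow_le_rpow_of_exponent_le hX1 (by linarith)
  have hx01 : 1 ≤ x0 := hz1.trans hzx
  have hZ1 : 1 ≤ Z := Nat.le_floor (by exact_mod_cast hz1)
  have hZN0 : Z ≤ N0 := Nat.floor_le_floor hzx
  have hexp2 : Real.exp 2 ≤ 8 := by
    have h1 := Real.exp_one_lt_d9
    have h2 : Real.exp 2 = Real.exp 1 ^ 2 := by
      rw [← Real.exp_nat_mul]
      norm_num
    rw [h2]
    have h3 := Real.exp_pos 1
    nlinarith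
  have hxr1 : ∀ ρ ∈ F, x0 ≤ xr ρ ∧ xr ρ ≤ 8 * x0 := by
    intro ρ hρ
    have h := hF ρ hρ
    have hpos : 0 < |ρ.im| := by linarith [h.2.2.2.1]
    have h1 : 0 ≤ Real.pi / |ρ.im| := div_nonneg Real.pi_pos.le hpos.le
    have h2 : Real.pi / |ρ.im| ≤ 2 := by
      rw [div_le_iff₀ hpos]
      have := Real.pi_le_four
      linarith [h.2.2.2.1]
    have h3 : 1 ≤ Real.exp (Real.pi / |ρ.im|) := Real.one_le_exp h1
    have h4 : Real.exp (Real.pi / |ρ.im|) ≤ 8 := (Real.exp_le_exp.2 h2).trans hexp2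
    exact n1 hx01 h3 h4
  have hE1 : ∀ ρ ∈ F, 1 ≤ E ρ ∧ E ρ ≤ 8 := by
    intro ρ hρ
    have h := hF ρ hρ
    have hpos : 0 < |ρ.im| := by linarith [h.2.2.2.1]
    have h1 : 0 ≤ Real.pi * (1 - ρ.re) / |ρ.im| :=
      div_nonneg (mul_nonneg Real.pi_pos.le (by linarith [h.2.2.1])) hpos.le
    have h2 : Real.pi * (1 - ρ.re) / |ρ.im| ≤ 2 := by
      rw [div_le_iff₀ hpos]
      have h3 := Real.pi_le_four
      have h4 := Real.pi_pos
      have h5 : 1 - ρ.re ≤ 1 := by linarith [h.2.1]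
      have h6 : 0 ≤ 1 - ρ.re := by linarith [h.2.2.1]
      exact n2 h3 h4 h5 h6 h.2.2.2.1
    exact ⟨Real.one_le_exp h1, (Real.exp_le_exp.2 h2).trans hexp2⟩
  have h8X : 8 * x0 ≤ X := by
    have h1 : x0 ≤ X ^ (1 / 2 : ℝ) := Real.rpow_le_rpow_of_exponent_le hX1 (by linarith)
    have h2 : X ^ (1 / 2 : ℝ) * X ^ (1 / 2 : ℝ) = X := by
      rw [← Real.rpow_add hX0]
      norm_num
    have h3 : 8 ≤ X ^ (1 / 2 : ℝ) := by
      have : (64 : ℝ) ^ (1 / 2 : ℝ) ≤ X ^ (1 / 2 : ℝ) :=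
        Real.rpow_le_rpow (by norm_num) hX64 (by norm_num)
      have h64 : (64 : ℝ) ^ (1 / 2 : ℝ) = 8 := by
        rw [show (64 : ℝ) = 8 ^ (2 : ℝ) by norm_num, ← Real.rpow_mul (by norm_num)]
        norm_num
      linarith
    exact n3 h1 h2 h3
  have hlogN2 : Real.log N2 ≤ L := by
    have h1 : (N2 : ℝ) ≤ 8 * x0 := Nat.floor_le (by positivity)
    have h2 : (0 : ℝ) < N2 := by
      have : 1 ≤ N2 := Nat.le_floor (by push_cast; linarith)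
      exact_mod_cast this
    exact Real.log_le_log h2 (h1.trans h8X)
  have hNr : ∀ ρ ∈ F, N0 ≤ ⌊xr ρ⌋₊ ∧ ⌊xr ρ⌋₊ ≤ N2 := fun ρ hρ =>
    ⟨Nat.floor_le_floor (hxr1 ρ hρ).1, Nat.floor_le_floor (hxr1 ρ hρ).2⟩
  have hN02 : N0 ≤ N2 := Nat.floor_le_floor (by linarith)
  have hXc : 0 < X ^ (-c1) := by positivity
  have hXc2 : X ^ (-c1) * X ^ (c1 / 2) * X ^ (c1 / 2) = 1 := by
    rw [← Real.rpow_add hX0, ← Real.rpow_add hX0]
    ring_nf
    exact Real.rpow_zero X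
  have hXc3 : 1 ≤ X ^ (c1 / 2) := Real.one_le_rpow hX1 (by linarith)
  -- the coefficients
  set aa : ℂ → ℕ → ℂ := fun ρ n => (vv (E ρ) N0 ⌊xr ρ⌋₊ n : ℂ) * (n : ℂ) ^ (-ρ) with haa
  have hlow : ∀ ρ ∈ F, 1 ≤ ‖∑ n ∈ Ioc Z N2, (cc Z n : ℂ) * aa ρ n‖ := by
    intro ρ hρ
    obtain ⟨hz, hre, hre1, him, himX⟩ := hF ρ hρ
    have e1 : ∑ n ∈ Ioc Z N2, (cc Z n : ℂ) * aa ρ n =
        ∑ n ∈ Ioc Z ⌊xr ρ⌋₊, (cc Z n : ℂ) * (n : ℂ) ^ (-ρ) +
          (E ρ : ℂ) * ∑ n ∈ Ioc Z N0, (cc Z n : ℂ) * (n : ℂ) ^ (-ρ) := by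
      rw [← sum_vv (fun n => (cc Z n : ℂ) * (n : ℂ) ^ (-ρ)) (E ρ) Z N0 ⌊xr ρ⌋₊ N2 (hNr ρ hρ).1
        (hNr ρ hρ).2]
      refine Finset.sum_congr rfl fun n _ => ?_
      simp only [haa]
      ring
    have e2 : ∀ N, Z ≤ N → ∑ n ∈ Ioc Z N, (cc Z n : ℂ) * (n : ℂ) ^ (-ρ) =
        ∑ n ∈ Ioc 0 N, (cc Z n : ℂ) * (n : ℂ) ^ (-ρ) - 1 := by
      intro N hN
      rw [← Finset.sum_Ioc_consecutive _ (Nat.zero_le Z) hN,
        ← Finset.sum_Ioc_consecutive _ (Nat.zero_le 1) hZ1]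
      have a1 : ∑ n ∈ Ioc 0 1, (cc Z n : ℂ) * (n : ℂ) ^ (-ρ) = 1 := by
        have : Ioc 0 1 = ({1} : Finset ℕ) := by decide
        rw [this, Finset.sum_singleton, cc_one Z hZ1]
        simp
      have a2 : ∑ n ∈ Ioc 1 Z, (cc Z n : ℂ) * (n : ℂ) ^ (-ρ) = 0 := by
        refine Finset.sum_eq_zero fun n hn => ?_
        rw [Finset.mem_Ioc] at hn
        rw [cc_zero Z n hn.1 hn.2]
        simp
      rw [a1, a2]
      ring
    have ε1 := mol_zero hκ hX1 H ρ hz (by linarith) hre1 him himX (xr ρ) (hxr1 ρ hρ).1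
    have ε2 := mol_zero hκ hX1 H ρ hz (by linarith) hre1 him himX x0 le_rfl
    have hpc := pole_cancel x0 (by linarith) ρ (by
      intro h
      rw [h] at him
      simp at him
      linarith)
    -- the error
    set ε : ℝ := X ^ (-c1) * ∑ d ∈ Icc 1 Z, (d : ℝ) ^ (-ρ.re) with hε
    have hεb : ε ≤ 1 / 2 := by
      have b1 : ∑ d ∈ Icc 1 Z, (d : ℝ) ^ (-ρ.re) ≤ X ^ (c1 / 2) * (1 + L) := by
        calc ∑ d ∈ Icc 1 Z, (d : ℝ) ^ (-ρ.re) ≤ ∑ d ∈ Icc 1 Z, X ^ (c1 / 2) * (1 / (d : ℝ)) := by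
              refine Finset.sum_le_sum fun d hd => ?_
              rw [Finset.mem_Icc] at hd
              have hd1 : (1 : ℝ) ≤ d := by exact_mod_cast hd.1
              have hdz : (d : ℝ) ≤ X ^ (3 * κ) := (Nat.le_floor_iff (by positivity)).1 hd.2
              have e : (d : ℝ) ^ (-ρ.re) = (d : ℝ) ^ (1 - ρ.re) * (1 / (d : ℝ)) := by
                rw [one_div, ← Real.rpow_neg_one, ← Real.rpow_add (by linarith)]
                congr 1
                ring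
              rw [e]
              apply mul_le_mul_of_nonneg_right _ (by positivity)
              calc (d : ℝ) ^ (1 - ρ.re) ≤ (d : ℝ) ^ a :=
                    Real.rpow_le_rpow_of_exponent_le hd1 (by linarith)
                _ ≤ (X ^ (3 * κ)) ^ a := Real.rpow_le_rpow (by linarith) hdz ha0
                _ = X ^ (3 * κ * a) := by rw [← Real.rpow_mul hX0.le]
                _ ≤ X ^ (c1 / 2) := Real.rpow_le_rpow_of_exponent_le hX1 (n5 hκ hκ1 ha0 ha hc1)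
          _ = X ^ (c1 / 2) * ∑ d ∈ Icc 1 Z, 1 / (d : ℝ) := by rw [Finset.mul_sum]
          _ ≤ X ^ (c1 / 2) * (1 + L) := by
              apply mul_le_mul_of_nonneg_left _ (by positivity)
              refine (hsum Z).trans ?_
              have h1 : (Z : ℝ) ≤ X := by
                have := Nat.floor_le (by positivity : 0 ≤ X ^ (3 * κ))
                linarith
              have h2 : (0 : ℝ) < Z := by exact_mod_cast hZ1
              have := Real.log_le_log h2 h1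
              linarith
      have b2 : 4 * L ≤ X ^ (c1 / 2) := by
        have : L ≤ L ^ 4 := n4 hL1
        linarith
      calc ε ≤ X ^ (-c1) * (X ^ (c1 / 2) * (1 + L)) := mul_le_mul_of_nonneg_left b1 hXc.le
        _ ≤ X ^ (-c1) * (X ^ (c1 / 2) * (X ^ (c1 / 2) / 2)) := by
            gcongr
            linarith
        _ = X ^ (-c1) * X ^ (c1 / 2) * X ^ (c1 / 2) / 2 := by ring
        _ = 1 / 2 := by rw [hXc2]
    obtain ⟨hE1', hE8⟩ := hE1 ρ hρ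
    rw [e1, e2 _ (hZN0.trans (hNr ρ hρ).1), e2 _ hZN0]
    set G1 : ℂ := ∑ n ∈ Ioc 0 ⌊xr ρ⌋₊, (cc Z n : ℂ) * (n : ℂ) ^ (-ρ) with hG1
    set G0 : ℂ := ∑ n ∈ Ioc 0 N0, (cc Z n : ℂ) * (n : ℂ) ^ (-ρ) with hG0
    set M : ℂ := ∑ d ∈ Icc 1 Z, (moebius d : ℂ) / d with hM
    have b3 : ‖G1 + E ρ * G0‖ ≤ (1 + E ρ) * ε := by
      have b4 : G1 + E ρ * G0 = (G1 - ((xr ρ : ℝ) : ℂ) ^ (1 - ρ) / (1 - ρ) * M) +
          E ρ * (G0 - ((x0 : ℝ) : ℂ) ^ (1 - ρ) / (1 - ρ) * M) := by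
        have : ((xr ρ : ℝ) : ℂ) ^ (1 - ρ) = -(E ρ : ℂ) * (x0 : ℂ) ^ (1 - ρ) := hpc
        rw [this]
        ring
      rw [b4]
      refine (norm_add_le _ _).trans ?_
      rw [norm_mul, Complex.norm_real, Real.norm_of_nonneg (by linarith : 0 ≤ E ρ)]
      have := mul_le_mul_of_nonneg_left ε2 (by linarith : 0 ≤ E ρ)
      linarith
    have b5 : G1 - 1 + (E ρ : ℂ) * (G0 - 1) = (G1 + E ρ * G0) - ((1 + E ρ : ℝ) : ℂ) := by
      push_cast
      ring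
    rw [b5, norm_sub_rev]
    have b6 := norm_sub_norm_le (((1 + E ρ : ℝ) : ℂ)) (G1 + E ρ * G0)
    rw [Complex.norm_real, Real.norm_of_nonneg (by linarith : 0 ≤ 1 + E ρ)] at b6
    exact n6 hE1' hεb b6 b3
  -- the kernel
  set R : ℝ := (F.card : ℝ) with hR
  have hR0 : 0 ≤ R := Nat.cast_nonneg _
  set P : ℝ := X ^ (10 * κ * a) with hP
  have hP1 : 1 ≤ P := Real.one_le_rpow hX1 (by positivity)
  have hpair : ∀ i ∈ F, ∀ j ∈ F, ∀ B0 : ℝ,
      (∀ y : ℝ, x0 ≤ y → y ≤ 8 * x0 →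
        ‖∑ n ∈ Ioc Z ⌊y⌋₊, (n : ℂ) ^ (-(i + (starRingEnd ℂ) j - 1))‖ ≤ B0) →
      ‖∑ n ∈ Ioc Z N2, ((n : ℝ) : ℂ) * (aa i n * (starRingEnd ℂ) (aa j n))‖ ≤ 81 * B0 := by
    intro i hi j hj B0 hB0
    have hBnn : 0 ≤ B0 := (norm_nonneg _).trans (hB0 x0 le_rfl (by linarith))
    set f : ℕ → ℂ := fun n => (n : ℂ) ^ (-(i + (starRingEnd ℂ) j - 1)) with hf
    have e1 : ∑ n ∈ Ioc Z N2, ((n : ℝ) : ℂ) * (aa i n * (starRingEnd ℂ) (aa j n)) =
        ∑ n ∈ Ioc Z N2, (vv (E i) N0 ⌊xr i⌋₊ n : ℂ) * (vv (E j) N0 ⌊xr j⌋₊ n : ℂ) * f n := by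
      refine Finset.sum_congr rfl fun n hn => ?_
      rw [Finset.mem_Ioc] at hn
      exact ker_eq n (by omega) _ _ _ _
    have e2 : ∃ y : ℝ, x0 ≤ y ∧ y ≤ 8 * x0 ∧
        ∑ n ∈ Ioc Z N2, ((n : ℝ) : ℂ) * (aa i n * (starRingEnd ℂ) (aa j n)) =
        ∑ n ∈ Ioc Z ⌊y⌋₊, f n + (E i + E j + E i * E j : ℝ) * ∑ n ∈ Ioc Z N0, f n := by
      rcases le_total (xr i) (xr j) with h | h
      · refine ⟨xr i, (hxr1 i hi).1, (hxr1 i hi).2, ?_⟩
        rw [e1, sum_vv2 f (E i) (E j) Z N0 ⌊xr i⌋₊ ⌊xr j⌋₊ N2 (hNr i hi).1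
          (Nat.floor_le_floor h) (hNr j hj).2]
      · refine ⟨xr j, (hxr1 j hj).1, (hxr1 j hj).2, ?_⟩
        rw [e1]
        have e3 := sum_vv2 f (E j) (E i) Z N0 ⌊xr j⌋₊ ⌊xr i⌋₊ N2 (hNr j hj).1
          (Nat.floor_le_floor h) (hNr i hi).2
        have e4 : (E i + E j + E i * E j : ℝ) = E j + E i + E j * E i := by ring
        rw [e4, ← e3]
        refine Finset.sum_congr rfl fun n _ => ?_
        ring
    obtain ⟨y, hy1, hy2, e3⟩ := e2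
    rw [e3]
    obtain ⟨ei1, ei8⟩ := hE1 i hi
    obtain ⟨ej1, ej8⟩ := hE1 j hj
    refine (norm_add_le _ _).trans ?_
    rw [norm_mul, Complex.norm_real, Real.norm_of_nonneg (by positivity)]
    have c1' := hB0 y hy1 hy2
    have c2' := hB0 x0 le_rfl (by linarith)
    have c3' : E i + E j + E i * E j ≤ 80 := n7 ei1 ei8 ej1 ej8
    calc ‖∑ n ∈ Ioc Z ⌊y⌋₊, f n‖ + (E i + E j + E i * E j) * ‖∑ n ∈ Ioc Z N0, f n‖
        ≤ B0 + 80 * B0 := by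
          apply add_le_add c1'
          exact mul_le_mul c3' c2' (norm_nonneg _) (by norm_num)
      _ = 81 * B0 := by ring
  have hre2 : ∀ i ∈ F, ∀ j ∈ F, 1 - 2 * a ≤ (i + (starRingEnd ℂ) j - 1).re ∧
      (i + (starRingEnd ℂ) j - 1).re ≤ 1 ∧ (i + (starRingEnd ℂ) j - 1).im = i.im - j.im := by
    intro i hi j hj
    have h1 := hF i hi
    have h2 := hF j hj
    simp only [Complex.sub_re, Complex.add_re, Complex.conj_re, Complex.one_re, Complex.sub_im,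
      Complex.add_im, Complex.conj_im, Complex.one_im]
    refine ⟨by linarith [h1.2.1, h2.2.1], by linarith [h1.2.2.1, h2.2.2.1], by ring⟩
  have hoff : ∀ i ∈ F, ∀ j ∈ F, i ≠ j →
      ‖∑ n ∈ Ioc Z N2, ((n : ℝ) : ℂ) * (aa i n * (starRingEnd ℂ) (aa j n))‖ ≤
        81 * (16 * P / |i.im - j.im| + 2 * X ^ (-c1)) := by
    intro i hi j hj hij
    refine hpair i hi j hj _ fun y hy1 hy2 => ?_
    obtain ⟨r1, r2, r3⟩ := hre2 i hi j hj
    have h1 := hsp i hi j hj hij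
    have h2 : |i.im - j.im| ≤ X ^ 2 := by
      have := abs_sub i.im j.im
      have b1 := (hF i hi).2.2.2.2
      have b2 := (hF j hj).2.2.2.2
      exact n8 this b1 b2 hX64
    have := G_bound hκ hX1 ha0 ha2 h2ac H y hy1 hy2 (i + (starRingEnd ℂ) j - 1) r1 r2
      (by rw [r3]; exact h1) (by rw [r3]; exact h2)
    rw [r3] at this
    exact this
  have hdia : ∀ j ∈ F, ‖∑ n ∈ Ioc Z N2, ((n : ℝ) : ℂ) * (aa j n * (starRingEnd ℂ) (aa j n))‖ ≤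
      81 * (8 * P * (1 + L)) := by
    intro j hj
    refine hpair j hj j hj _ fun y hy1 hy2 => ?_
    obtain ⟨r1, _, _⟩ := hre2 j hj j hj
    have h1 : (⌊y⌋₊ : ℝ) ≤ 8 * x0 := (Nat.floor_le (by linarith)).trans hy2
    refine G_diag hX1 ha0 ha2 Z ⌊y⌋₊ h1 _ r1 ?_
    have h2 : (0 : ℝ) < (⌊y⌋₊ : ℕ) := by
      have : 1 ≤ ⌊y⌋₊ := Nat.le_floor (by push_cast; linarith)
      exact_mod_cast this
    exact Real.log_le_log h2 (h1.trans h8X)
  set B : ℝ := 81 * (112 * P * L + 2 * R * X ^ (-c1)) with hB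
  have hB0 : 0 ≤ B := by positivity
  have hBj : ∀ j ∈ F, ∑ i ∈ F,
      ‖∑ n ∈ Ioc Z N2, ((n : ℝ) : ℂ) * (aa i n * (starRingEnd ℂ) (aa j n))‖ ≤ B := by
    intro j hj
    rw [← Finset.add_sum_erase F _ hj]
    have h1 := hdia j hj
    have h2 : ∑ i ∈ F.erase j,
        ‖∑ n ∈ Ioc Z N2, ((n : ℝ) : ℂ) * (aa i n * (starRingEnd ℂ) (aa j n))‖ ≤
        ∑ i ∈ F.erase j, (81 * 16 * P * (1 / |i.im - j.im|) + 162 * X ^ (-c1)) := by
      refine Finset.sum_le_sum fun i hi => ?_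
      rw [Finset.mem_erase] at hi
      refine (hoff i hi.2 j hj hi.1).trans (le_of_eq ?_)
      ring
    rw [Finset.sum_add_distrib, ← Finset.mul_sum, Finset.sum_const, nsmul_eq_mul] at h2
    have h3 := spacing F X hX1 (fun ρ hρ => (hF ρ hρ).2.2.2.2) hsp j hj
    have h4 : Real.log (2 * X) ≤ 1 + L := by
      rw [Real.log_mul (by norm_num) hX0.ne']
      have := Real.log_two_lt_d9
      linarith
    have h5 : ((F.erase j).card : ℝ) ≤ R := by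
      rw [hR]
      exact_mod_cast Finset.card_erase_le
    have h6 : 81 * 16 * P * ∑ i ∈ F.erase j, 1 / |i.im - j.im| ≤ 81 * 16 * P * (6 * L) := by
      apply mul_le_mul_of_nonneg_left _ (by positivity)
      linarith
    have h7 : ((F.erase j).card : ℝ) * (162 * X ^ (-c1)) ≤ R * (162 * X ^ (-c1)) := by gcongr
    have h8 : 81 * (8 * P * (1 + L)) ≤ 81 * (16 * P * L) := n9 hP1 hL1
    rw [hB]
    linarith
  have hdual := dual F (Ioc Z N2) (cc Z) aa (fun n => (n : ℝ)) (by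
      intro n hn
      rw [Finset.mem_Ioc] at hn
      have : 0 < n := by omega
      exact_mod_cast this) hlow B hB0 hBj
  have hD : ∑ n ∈ Ioc Z N2, cc Z n ^ 2 / (n : ℝ) ≤ 16 * L ^ 4 := by
    calc ∑ n ∈ Ioc Z N2, cc Z n ^ 2 / (n : ℝ) ≤
          ∑ n ∈ Ioc Z N2, (n.divisors.card : ℝ) ^ 2 / n := by
          refine Finset.sum_le_sum fun n _ => ?_
          apply div_le_div_of_nonneg_right _ (Nat.cast_nonneg _)
          rw [← sq_abs]
          exact pow_le_pow_left₀ (abs_nonneg _) (cc_abs Z n) 2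
      _ ≤ ∑ n ∈ Icc 1 N2, (n.divisors.card : ℝ) ^ 2 / n := by
          refine Finset.sum_le_sum_of_subset_of_nonneg ?_ fun _ _ _ => by positivity
          intro n hn
          rw [Finset.mem_Ioc] at hn
          rw [Finset.mem_Icc]
          omega
      _ ≤ (∑ k ∈ Icc 1 N2, 1 / (k : ℝ)) ^ 4 := tau_sq N2
      _ ≤ (2 * L) ^ 4 := by
          apply pow_le_pow_left₀ (Finset.sum_nonneg fun _ _ => by positivity)
          have := hsum N2
          linarith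
      _ = 16 * L ^ 4 := by ring
  have hR1 : R ≤ 16 * L ^ 4 * B := hdual.trans (mul_le_mul_of_nonneg_right hD hB0)
  have hsmall : 2592 * L ^ 4 * X ^ (-c1) ≤ 1 / 2 := by
    have h1 : 6000 * L ^ 4 * X ^ (-c1) ≤ X ^ (c1 / 2) * X ^ (-c1) :=
      mul_le_mul_of_nonneg_right hlogX hXc.le
    have h2 : X ^ (c1 / 2) * X ^ (-c1) ≤ 1 := by
      have h3 : X ^ (c1 / 2) * X ^ (-c1) ≤ X ^ (-c1) * X ^ (c1 / 2) * X ^ (c1 / 2) :=
        n10 hXc3 hXc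
      rw [hXc2] at h3
      exact h3
    have h5 : 0 ≤ L ^ 4 * X ^ (-c1) := by positivity
    linarith
  have hR2 : R ≤ 290304 * P * L ^ 5 := by
    have h1 : 16 * L ^ 4 * B = 145152 * P * L ^ 5 + (2592 * L ^ 4 * X ^ (-c1)) * R := by
      rw [hB]
      ring
    rw [h1] at hR1
    have h2 := n11 hR0 hR1 hsmall
    linarith
  have hPP : P ≤ X ^ (20 * κ * a) :=
    Real.rpow_le_rpow_of_exponent_le hX1 (by linarith [mul_nonneg hκ.le ha0])
  calc R ≤ 290304 * P * L ^ 5 := hR2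
    _ ≤ 300000 * X ^ (20 * κ * a) * L ^ 6 := by
        have h1 : L ^ 5 ≤ L ^ 6 := pow_le_pow_right₀ hL1 (by norm_num)
        have h2 : 290304 * P ≤ 300000 * X ^ (20 * κ * a) := by linarith
        exact mul_le_mul h2 h1 (by positivity) (by positivity)

end Pool.Agent.Helper61.MV
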